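import Pool.Agent.TH488.BEH.FinalC

set_option autoImplicit false

/-!
# Horrocks' bounds for modules with a cyclic direct summand over all but one of the variables

Let `f_1, …, f_m` be a regular sequence in the `k`-algebra `S` with `S = k + (f)`, for example the
variables of a polynomial ring over the field `k`, and let `M` be a nonzero `S`-module of finite
dimension over `k`. Let `a_1, …, a_n, b` be elements of a commutative `k`-algebra `A` acting on `M`,
nilpotent on `M`. Suppose that `m = n + 1` and that `f_1, …, f_m` act as `a_1, …, a_n, b` in some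
order, or that `k` is infinite, `m > n` and `f_1, …, f_m` act as elements of the ideal
`(a_1, …, a_n, b)`. Then every resolution of `M` by finite free `S`-modules has
`rank F_i ≥ m.choose i`, provided that one of the following holds.

* `n ≤ 4` and the image of `k[a_1, …, a_n]` in `End_k(M)` is a Gorenstein ring, that is, it has a
  linear form vanishing on no nonzero ideal.
* `M` has, as a module over `k[a_1, …, a_n]`, a nonzero direct summand `e M` which is cyclic, or
  such that for every `l` the compression `e b^l e` of `b^l` to `e M` is the multiplication by an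
  element of `k[a_1, …, a_n]`. Moreover `n ≤ 4` (and `q = 0`), or `e M` has a `ℤ^q`-grading for which the `a_j` are homogeneous, at most four of them of degree zero, such that
  for every coordinate `t` at most two of the degrees have `t` as the first nonzero coordinate.
-/

namespace Pool.Agent.Results.MP_e2ce73_al.CyclicSummand

universe u v w w'

theorem result (k : Type u) [Field k] (S : Type w) [CommRing S] [Algebra k S]
    (m : ℕ) (f : Fin m → S)
    (hreg : ∀ (l : Fin m) (s : S), f l * s ∈ Ideal.span (f '' Set.Iio l) →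
      s ∈ Ideal.span (f '' Set.Iio l))
    (hres : ∀ s : S, ∃ c : k, s - algebraMap k S c ∈ Ideal.span (Set.range f))
    (M : Type v) [AddCommGroup M] [Module k M] [FiniteDimensional k M] [Nontrivial M]
    [Module S M] [IsScalarTower k S M]
    (A : Type w') [CommRing A] [Algebra k A] [Module A M] [IsScalarTower k A M]
    (n : ℕ) (a : Fin n → A) (b : A)
    (ha : ∀ j, ∃ N : ℕ, ∀ v : M, a j ^ N • v = 0) (hb : ∃ N : ℕ, ∀ v : M, b ^ N • v = 0)
    (x : Fin m → A)
    (hx : (∃ g : Fin m ≃ Option (Fin n), ∀ j, x j = (g j).elim b a) ∨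
      (Infinite k ∧ n < m ∧ ∀ j, x j ∈ Ideal.span (insert b (Set.range a))))
    (hfx : ∀ (j : Fin m) (v : M), f j • v = x j • v)
    (H : (n ≤ 4 ∧ ∃ φ : Module.End k M →ₗ[k] k, ∀ s ∈ Algebra.adjoin k (Set.range a),
        (∀ t ∈ Algebra.adjoin k (Set.range a), φ (Algebra.lsmul k k M (s * t)) = 0) →
          ∀ v : M, s • v = 0) ∨
      ∃ (e : M →ₗ[k] M) (q : ℕ) (deg : Fin n → Fin q → ℤ) (ℳ : (Fin q → ℤ) → Submodule k M),
        e ≠ 0 ∧ (∀ v, e (e v) = e v) ∧ (∀ j v, e (a j • v) = a j • e v) ∧
        ((∃ u : M, ∀ v : M, ∃ s ∈ Algebra.adjoin k (Set.range a), e v = s • e u) ∨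
          ∀ l : ℕ, ∃ s ∈ Algebra.adjoin k (Set.range a), ∀ v : M, e (b ^ l • e v) = s • e v) ∧
        {j : Fin n | deg j = 0}.ncard ≤ 4 ∧
        (∀ t : Fin q, {j : Fin n | deg j t ≠ 0 ∧ ∀ u < t, deg j u = 0}.ncard ≤ 2) ∧
        iSupIndep ℳ ∧ ⨆ c, ℳ c = LinearMap.range e ∧
        ∀ (j : Fin n) (c : Fin q → ℤ), ∀ v ∈ ℳ c, a j • v ∈ ℳ (c + deg j))
    (F : ℕ → Type v) [∀ i, AddCommGroup (F i)] [∀ i, Module S (F i)]
    [∀ i, Module.Free S (F i)] [∀ i, Module.Finite S (F i)]
    (d : ∀ i, F (i + 1) →ₗ[S] F i) (ε : F 0 →ₗ[S] M) (hε : Function.Surjective ε)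
    (hd0 : LinearMap.range (d 0) = LinearMap.ker ε)
    (hd : ∀ i, LinearMap.range (d (i + 1)) = LinearMap.ker (d i)) (i : ℕ) :
    m.choose i ≤ Module.finrank S (F i) :=
  Pool.Agent.TH488.BEH.final_summand k S m f hreg hres M A n a b ha hb x hx hfx H F d ε hε hd0 hd i

end Pool.Agent.Results.MP_e2ce73_al.CyclicSummand
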