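import Pool.Agent.TH488.BEH.Final

set_option autoImplicit false

/-!
# Horrocks' bounds when the variables act through an ideal with few generators

Let `f_1, …, f_m` be a regular sequence in the `k`-algebra `S` with `S = k + (f)`, for example the
variables of a polynomial ring or of a power series ring over the infinite field `k`, and let `M` be a
nonzero `S`-module of finite dimension over `k`. Suppose that some commutative `k`-algebra `A` acts
on `M` and that `f_1, …, f_m` act on `M` as elements `x_1, …, x_m` of an ideal `(a_1, …, a_r)` of `A`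
generated by at most four elements which are nilpotent on `M`. Then every resolution of `M` by finite
free `S`-modules has `rank F_i ≥ m.choose i`.

More generally (this is the case `q > 0` of the statement) `r ≤ m` may be arbitrary if `M` has a
`ℤ^q`-grading for which the `a_j` are homogeneous, at most four of them of degree zero, such that for
every coordinate `t` at most two of the degrees have `t` as the first nonzero coordinate.
-/

namespace Pool.Agent.Results.MP_e2ce73_al.FewGenerators

universe u v w w'

theorem result (k : Type u) [Field k] [Infinite k] (S : Type w) [CommRing S] [Algebra k S]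
    (m : ℕ) (f : Fin m → S)
    (hreg : ∀ (l : Fin m) (s : S), f l * s ∈ Ideal.span (f '' Set.Iio l) →
      s ∈ Ideal.span (f '' Set.Iio l))
    (hres : ∀ s : S, ∃ c : k, s - algebraMap k S c ∈ Ideal.span (Set.range f))
    (M : Type v) [AddCommGroup M] [Module k M] [FiniteDimensional k M] [Nontrivial M]
    [Module S M] [IsScalarTower k S M]
    (A : Type w') [CommRing A] [Algebra k A] [Module A M] [IsScalarTower k A M]
    (r : ℕ) (hr : r ≤ m ∨ m ≤ 4) (a : Fin r → A)
    (ha : ∀ j, ∃ N : ℕ, ∀ v : M, a j ^ N • v = 0)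
    (x : Fin m → A) (hx : ∀ j, x j ∈ Ideal.span (Set.range a))
    (hfx : ∀ (j : Fin m) (v : M), f j • v = x j • v)
    (q : ℕ) (deg : Fin r → Fin q → ℤ)
    (h4 : {j : Fin r | deg j = 0}.ncard ≤ 4)
    (h2 : ∀ t : Fin q, {j : Fin r | deg j t ≠ 0 ∧ ∀ u < t, deg j u = 0}.ncard ≤ 2)
    (ℳ : (Fin q → ℤ) → Submodule k M) (hℳ : DirectSum.IsInternal ℳ)
    (hdeg : ∀ (j : Fin r) (b : Fin q → ℤ), ∀ v ∈ ℳ b, a j • v ∈ ℳ (b + deg j))
    (F : ℕ → Type v) [∀ i, AddCommGroup (F i)] [∀ i, Module S (F i)]
    [∀ i, Module.Free S (F i)] [∀ i, Module.Finite S (F i)]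
    (d : ∀ i, F (i + 1) →ₗ[S] F i) (ε : F 0 →ₗ[S] M) (hε : Function.Surjective ε)
    (hd0 : LinearMap.range (d 0) = LinearMap.ker ε)
    (hd : ∀ i, LinearMap.range (d (i + 1)) = LinearMap.ker (d i)) (i : ℕ) :
    m.choose i ≤ Module.finrank S (F i) :=
  Pool.Agent.TH488.BEH.final k S m f hreg hres M A r hr a ha x hx hfx q deg h4 h2 ℳ hℳ hdeg F d ε
    hε hd0 hd i

end Pool.Agent.Results.MP_e2ce73_al.FewGenerators
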