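import Pool.Agent.TH283.HKSum

set_option autoImplicit false

/-!
# Betti numbers of large modules killed by elements of a regular sequence

Let `f_1, …, f_m` be a regular sequence in the `k`-algebra `S` with `dim_k S/(f) < ∞`, and let `M`
be a nonzero finite dimensional `S`-module with a resolution `F` by finite free modules. Suppose
that `f_{r+1}, …, f_m` kill `M`, where `r ≤ 4` and `r < m`, that `f_1, …, f_r` are nilpotent on
`M`, and that `M` is the direct sum of `N` nonzero subspaces stable under `f_1, …, f_r`. (For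
`r = 0`, when all `f_j` kill `M`, one can take `N = dim M`.) Then the alternating partial sums of
the ranks of `F` (the ranks of the syzygies) are at least `(m-1).choose i * N / dim S/(f)`. If
`N > (1 - 1/C) dim S/(f)`, `C = (m-1).choose ((m-1)/2)`, the Buchsbaum–Eisenbud–Horrocks bounds
follow. Below `m = n + 1`, and `f` is indexed from `0`.
-/

namespace Pool.Agent.Results.MP_e2ce73_al.LargeModules

open Pool.Agent.TH283.HK

universe u v w

/-- The bounds for the ranks `β 0, β 1, …`: with `m = n + 1`, the syzygy ranks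
`β i - β (i-1) + ⋯ ± β 0` are at least `(m-1).choose i * (N / l)`, and if
`N / l > 1 - 1/C`, `C = (m-1).choose ((m-1)/2)`, they are at least `(m-1).choose i`, and
`β i` is at least `m.choose i`. -/
def Bounds (n N l : ℕ) (β : ℕ → ℕ) : Prop :=
  (∀ i : ℕ, (n.choose i : ℤ) * N ≤
      (∑ j ∈ Finset.range (i + 1), (-1) ^ (i + j) * (β j : ℤ)) * l) ∧
    (((n.choose (n / 2) : ℤ) - 1) * l < (n.choose (n / 2) : ℤ) * N →
      (∀ i : ℕ, (n.choose i : ℤ) ≤ ∑ j ∈ Finset.range (i + 1), (-1) ^ (i + j) * (β j : ℤ)) ∧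
      ∀ i : ℕ, (n + 1).choose i ≤ β i)

theorem bounds_of_ineq (n N l : ℕ) (hN : 0 < N) (β : ℕ → ℕ)
    (h1 : ∀ i : ℕ, (n.choose i : ℤ) * N ≤ alt (fun j => (β j : ℤ)) i * l) : Bounds n N l β := by
  have hl : 0 < l := by
    by_contra hl
    have hl0 : l = 0 := by omega
    have h0 := h1 0
    rw [hl0] at h0
    simp only [Nat.choose_zero_right, Nat.cast_one, one_mul, Nat.cast_zero, mul_zero] at h0
    have : (0 : ℤ) < N := by exact_mod_cast hN
    omega
  refine ⟨h1, fun h => ?_⟩
  have h2 : ∀ i : ℕ, (n.choose i : ℤ) ≤ alt (fun j => (β j : ℤ)) i := by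
    intro i
    refine arith l N (n.choose (n / 2)) (n.choose i) _ (by exact_mod_cast hl) ?_ (by positivity)
      ?_ h (h1 i)
    · exact_mod_cast Nat.choose_pos (Nat.div_le_self n 2)
    · exact_mod_cast Nat.choose_le_middle i n
  refine ⟨h2, fun i => ?_⟩
  cases i with
  | zero =>
    have := h2 0
    rw [alt_zero] at this
    simp only [Nat.choose_zero_right] at this ⊢
    exact_mod_cast this
  | succ i =>
    have h3 := h2 (i + 1)
    have h4 := h2 i
    rw [alt_succ] at h3
    rw [Nat.choose_succ_succ]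
    have : ((n.choose i + n.choose (i + 1) : ℕ) : ℤ) ≤ β (i + 1) := by
      push_cast
      linarith
    exact_mod_cast this

theorem result (k : Type u) [Field k] (S : Type w) [CommRing S] [Algebra k S] (n : ℕ)
    (f : Fin (n + 1) → S)
    (hreg : ∀ (l : Fin (n + 1)) (s : S), f l * s ∈ Ideal.span (f '' Set.Iio l) →
      s ∈ Ideal.span (f '' Set.Iio l))
    (hfin : Module.Finite k (S ⧸ Ideal.span (Set.range f)))
    (M : Type v) [AddCommGroup M] [Module k M] [FiniteDimensional k M] [Nontrivial M]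
    [Module S M] [IsScalarTower k S M] (r : ℕ) (hr4 : r ≤ 4) (hrn : r ≤ n)
    (hM : ∀ (j : Fin (n + 1)) (x : M), r ≤ (j : ℕ) → f j • x = 0)
    (hnil : ∀ j : Fin (n + 1), (j : ℕ) < r → ∃ N : ℕ, ∀ x : M, f j ^ N • x = 0)
    (ι : Type) [Fintype ι] (𝓜 : ι → Submodule k M) (hi : iSupIndep 𝓜) (ht : ⨆ a, 𝓜 a = ⊤)
    (hne : ∀ a, 𝓜 a ≠ ⊥)
    (hs : ∀ j : Fin (n + 1), (j : ℕ) < r → ∀ a, ∀ x ∈ 𝓜 a, f j • x ∈ 𝓜 a)
    (F : ℕ → Type v) [∀ i, AddCommGroup (F i)] [∀ i, Module S (F i)]
    [∀ i, Module.Free S (F i)] [∀ i, Module.Finite S (F i)]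
    (d : ∀ i, F (i + 1) →ₗ[S] F i) (ε : F 0 →ₗ[S] M) (hε : Function.Surjective ε)
    (hd0 : LinearMap.range (d 0) = LinearMap.ker ε)
    (hd : ∀ i, LinearMap.range (d (i + 1)) = LinearMap.ker (d i)) :
    Bounds n (Fintype.card ι) (Module.finrank k (S ⧸ Ideal.span (Set.range f)))
      (fun i => Module.finrank S (F i)) := by
  refine bounds_of_ineq _ _ _ ?_ _ (main_ineq' (k := k) S n f hreg hfin M r hr4 hrn hM hnil 𝓜
    hi ht hne hs F d ε hε hd0 hd)
  rw [Fintype.card_pos_iff]
  by_contra hι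
  rw [not_nonempty_iff] at hι
  rw [iSup_of_empty] at ht
  exact bot_ne_top ht

end Pool.Agent.Results.MP_e2ce73_al.LargeModules
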